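import Pool.Agent.Lib.MP_426b05_co.Base

/-!
# Module CS: the Cauchy-Schwarz step
-/

set_option autoImplicit false

namespace Pool.Agent.Lib.MP_426b05_co.H49

open Finset

/-- equal images and colours -/
theorem eq_of_image {V : Type} [DecidableEq V] {n : ℕ} {χ : Fin n → V} {φ φ' : V → Fin n}
    (h : ∀ a, χ (φ a) = a) (h' : ∀ a, χ (φ' a) = a) {S : Finset V}
    (hS : S.image φ = S.image φ') : ∀ a ∈ S, φ a = φ' a := by
  intro a ha
  have h1 : φ a ∈ S.image φ' := by
    rw [← hS]
    exact mem_image_of_mem φ ha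
  obtain ⟨b, -, hb⟩ := mem_image.1 h1
  have h2 : b = a := by
    rw [← h' b, hb, h a]
  rw [← hb, h2]

theorem cs : CsStatement := by
  intro V _ _ r n t A χ e R i hRe
  classical
  -- the maximizing set
  have hB : ∀ (ω : Om r n t) (U : RS r n), ∃ B : Finset (Fin n),
      (univ.sup fun B : Finset (Fin n) => cntUB A χ e R i ω U B) = cntUB A χ e R i ω U B := by
    intro ω U
    obtain ⟨B, -, hB⟩ := exists_mem_eq_sup (univ : Finset (Finset (Fin n))) ⟨∅, mem_univ _⟩
      (fun B : Finset (Fin n) => cntUB A χ e R i ω U B)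
    exact ⟨B, hB⟩
  choose B hB using hB
  set c : Om r n t × RS r n → ℕ := fun q => cntUB A χ e R i q.1 q.2 (B q.1 q.2) with hc
  set g : Om r n t × RS r n → ℕ := fun q => if c q = 0 then 0 else 1 with hg
  have h1 : ∑ ω : Om r n t, ysum A χ e R i ω = ∑ q : Om r n t × RS r n, g q * c q := by
    rw [Fintype.sum_prod_type]
    refine sum_congr rfl fun ω _ => ?_
    unfold ysum
    refine sum_congr rfl fun U _ => ?_
    rw [hB ω U]
    show c (ω, U) = g (ω, U) * c (ω, U)
    simp only [hg]
    split_ifs with h0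
    · rw [h0]
    · rw [one_mul]
  have h2 : ∑ q : Om r n t × RS r n, g q ^ 2 ≤ ∑ ω : Om r n t, projCnt A χ e R i ω := by
    rw [Fintype.sum_prod_type]
    refine sum_le_sum fun ω _ => ?_
    have h3 : ∑ U : RS r n, g (ω, U) ^ 2 = (univ.filter fun U : RS r n => c (ω, U) ≠ 0).card := by
      rw [card_filter]
      refine sum_congr rfl fun U _ => ?_
      simp only [hg]
      split_ifs with h4 h5 <;> simp_all
    rw [h3]
    unfold projCnt
    refine card_le_card fun U hU => ?_
    rw [mem_filter] at hU ⊢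
    refine ⟨mem_univ _, ?_⟩
    have h4 : c (ω, U) ≠ 0 := hU.2
    have h5 : 0 < c (ω, U) := Nat.pos_of_ne_zero h4
    simp only [hc, cntUB] at h5
    obtain ⟨p, hp⟩ := card_pos.1 h5
    rw [mem_filter] at hp
    exact ⟨p, hp.2.1, hp.2.2.1⟩
  have h3 : ∑ q : Om r n t × RS r n, c q ^ 2 ≤
      ∑ ω : Om r n t, pairCnt A χ e R i (e i) ω := by
    rw [Fintype.sum_prod_type]
    refine sum_le_sum fun ω _ => ?_
    set S : RS r n → Finset ((V → Fin n) × (Fin i → Fin t)) := fun U =>
      univ.filter fun p : (V → Fin n) × (Fin i → Fin t) =>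
        Valid A χ e R i ω p ∧ (R i).image p.1 = U.1 ∧ (e i \ R i).image p.1 = B ω U with hS
    have h4 : ∀ U, c (ω, U) ^ 2 = (S U ×ˢ S U).card := by
      intro U
      rw [card_product, sq]
      rfl
    simp only [h4]
    rw [← card_biUnion]
    · unfold pairCnt
      refine card_le_card fun q hq => ?_
      rw [mem_biUnion] at hq
      obtain ⟨U, -, hU⟩ := hq
      rw [mem_product, hS] at hU
      simp only [mem_filter, mem_univ, true_and] at hU
      rw [mem_filter]
      refine ⟨mem_univ _, hU.1.1, hU.2.1, fun a ha => ?_⟩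
      by_cases haR : a ∈ R i
      · exact eq_of_image hU.1.1.1 hU.2.1.1 (hU.1.2.1.trans hU.2.2.1.symm) a haR
      · exact eq_of_image hU.1.1.1 hU.2.1.1 (hU.1.2.2.trans hU.2.2.2.symm) a
          (mem_sdiff.2 ⟨ha, haR⟩)
    · intro U _ U' _ hUU'
      refine disjoint_left.2 fun q hq hq' => hUU' ?_
      rw [mem_product, hS] at hq hq'
      simp only [mem_filter, mem_univ, true_and] at hq hq'
      exact Subtype.ext (hq.1.2.1.symm.trans hq'.1.2.1)
  rw [h1]
  refine (sum_mul_sq_le_sq_mul_sq univ g c).trans ?_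
  exact Nat.mul_le_mul h2 h3

end Pool.Agent.Lib.MP_426b05_co.H49
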