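import Pool.Agent.Lib.MP_426b05_co.Base

/-!
# Module RES: resampling the last time
-/

set_option autoImplicit false

namespace Pool.Agent.Lib.MP_426b05_co.H49

open Finset

/-- resampling one coordinate -/
theorem sum_update {ι α : Type} [Fintype ι] [DecidableEq ι] [Fintype α] (T : ι)
    (h : (ι → α) → ℕ) :
    ∑ ω : ι → α, ∑ u : α, h (Function.update ω T u) = Fintype.card α * ∑ ω : ι → α, h ω := by
  have hinv : Function.Involutive fun q : (ι → α) × α => (Function.update q.1 T q.2, q.1 T) := by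
    rintro ⟨ω, u⟩
    simp
  have h1 := Equiv.sum_comp hinv.toPerm (fun q : (ι → α) × α => h q.1)
  simp only [Function.Involutive.coe_toPerm] at h1
  rw [Fintype.sum_prod_type] at h1
  rw [h1, Fintype.sum_prod_type]
  simp only [sum_const, card_univ, smul_eq_mul]
  rw [mul_sum]

theorem res : ResStatement := by
  intro V _ _ r n t A hA χ e R i
  classical
  set F : Om r n t → Fin t → Finset ((V → Fin n) × (Fin i → Fin t)) := fun ω T =>
    univ.filter fun p : (V → Fin n) × (Fin i → Fin t) =>
      Valid A χ e R i ω p ∧ (∀ j, p.2 j < T) ∧ (ω T).1 = (R i).image p.1 ∧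
        A ω T = (e i \ R i).image p.1 with hF
  have h1 : ∀ ω : Om r n t, cnt A χ e R (i + 1) ω ≤ ∑ T : Fin t, (F ω T).card := by
    intro ω
    rw [← card_sigma]
    unfold cnt
    refine card_le_card_of_injOn (fun p : (V → Fin n) × (Fin (i + 1) → Fin t) =>
      (⟨p.2 (Fin.last i), (p.1, fun j => p.2 j.castSucc)⟩ :
        Σ _ : Fin t, (V → Fin n) × (Fin i → Fin t))) ?_ ?_
    · intro p hp
      have hp' := (mem_filter.1 hp).2
      obtain ⟨hp1, hp2, hp3⟩ := hp'
      have h4 := hp3 (Fin.last i)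
      simp only [Fin.val_last] at h4
      refine mem_sigma.2 ⟨mem_univ _, mem_filter.2 ⟨mem_univ _, ⟨hp1, ?_, ?_⟩, ?_, h4⟩⟩
      · intro j j' hjj'
        exact hp2 (Fin.castSucc_lt_castSucc_iff.2 hjj')
      · intro j
        exact hp3 j.castSucc
      · intro j
        exact hp2 (Fin.castSucc_lt_last j)
    · intro p _ q _ hpq
      simp only [Sigma.mk.injEq, heq_eq_eq, Prod.mk.injEq] at hpq
      obtain ⟨h4, h5, h6⟩ := hpq
      refine Prod.ext h5 (funext fun j => ?_)
      refine Fin.lastCases h4 (fun j => ?_) j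
      exact congrFun h6 j
  have h2 : ∀ (T : Fin t) (ω : Om r n t) (u : RS r n),
      (F (Function.update ω T u) T).card ≤
        univ.sup fun B : Finset (Fin n) => cntUB A χ e R i ω u B := by
    intro T ω u
    refine le_trans ?_ (le_sup (f := fun B : Finset (Fin n) => cntUB A χ e R i ω u B)
      (mem_univ (A (Function.update ω T u) T)))
    unfold cntUB
    refine card_le_card fun p hp => ?_
    obtain ⟨hp1, hp2, hp3, hp4⟩ := (mem_filter.1 hp).2
    rw [Function.update_self] at hp3
    refine mem_filter.2 ⟨mem_univ _, ⟨hp1.1, hp1.2.1, fun j => ?_⟩, hp3.symm, hp4.symm⟩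
    have h5 := hp1.2.2 j
    have h6 : ∀ k ≤ p.2 j, Function.update ω T u k = ω k := fun k hk =>
      Function.update_of_ne (ne_of_lt (lt_of_le_of_lt hk (hp2 j))) _ _
    rw [h6 _ le_rfl, hA _ ω _ h6] at h5
    exact h5
  calc (∑ ω : Om r n t, cnt A χ e R (i + 1) ω) * Fintype.card (RS r n)
      ≤ (∑ ω : Om r n t, ∑ T : Fin t, (F ω T).card) * Fintype.card (RS r n) :=
        Nat.mul_le_mul_right _ (sum_le_sum fun ω _ => h1 ω)
    _ = ∑ T : Fin t, Fintype.card (RS r n) * ∑ ω : Om r n t, (F ω T).card := by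
        rw [sum_comm, sum_mul]
        exact sum_congr rfl fun T _ => mul_comm _ _
    _ = ∑ T : Fin t, ∑ ω : Om r n t, ∑ u : RS r n, (F (Function.update ω T u) T).card :=
        sum_congr rfl fun T _ => (sum_update T fun ω => (F ω T).card).symm
    _ ≤ ∑ _T : Fin t, ∑ ω : Om r n t, ysum A χ e R i ω :=
        sum_le_sum fun T _ => sum_le_sum fun ω _ => sum_le_sum fun u _ => h2 T ω u
    _ = t * ∑ ω : Om r n t, ysum A χ e R i ω := by
        rw [sum_const, card_univ, Fintype.card_fin, smul_eq_mul]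

end Pool.Agent.Lib.MP_426b05_co.H49
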