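import Pool.Agent.Lib.MP_426b05_co.Base

/-!
# Module S1: a copy all of whose sets are offered is complete, or has a competitor
-/

set_option autoImplicit false

namespace Pool.Agent.Lib.MP_426b05_co.H49

open Finset

theorem eq_of_image' {V : Type} [DecidableEq V] {n : ℕ} {B : V → Finset (Fin n)}
    (hB : ∀ a b, a ≠ b → Disjoint (B a) (B b)) {φ ψ : V → Fin n}
    (h : ∀ a, φ a ∈ B a) (h' : ∀ a, ψ a ∈ B a) {S : Finset V}
    (hS : S.image φ = S.image ψ) : ∀ a ∈ S, φ a = ψ a := by
  intro a ha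
  have h1 : φ a ∈ S.image ψ := by
    rw [← hS]
    exact mem_image_of_mem φ ha
  obtain ⟨b, -, hb⟩ := mem_image.1 h1
  by_cases hab : b = a
  · rw [← hb, hab]
  · exact absurd (h a) (disjoint_left.1 (hB b a hab) (hb ▸ h' b))

theorem s1 : S1Statement := by
  intro V _ _ r n m B F A e R W hB hsub hch φ hφ hoff
  classical
  by_cases hall : ∀ j < m, Pres F A e R j φ
  · exact Or.inl hall
  right
  push Not at hall
  -- the first edge that is not present
  have hex : ∃ j, j < m ∧ ¬ Pres F A e R j φ := hall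
  obtain ⟨hjm, hjn⟩ := Nat.find_spec hex
  set j := Nat.find hex with hj
  have hlt : ∀ l < j, Pres F A e R l φ := by
    intro l hl
    have h1 := Nat.find_min hex (hj ▸ hl)
    by_contra h2
    exact h1 ⟨hl.trans hjm, h2⟩
  obtain ⟨U, hUA, hU⟩ := hoff j hjm
  obtain ⟨ψ', hψB, hψR, hψP, hψF⟩ := hch j hjm U φ hφ hU.symm fun l hl _ => hlt l hl
  have hR : ∀ a ∈ R j, ψ' a = φ a := eq_of_image' hB hψB hφ (hψR.trans hU)
  set D : Finset V := (W j).filter fun a => ψ' a ≠ φ a with hD
  refine ⟨j, hjm, D, ?_, ?_, ?_, fun a => if a ∈ W j then ψ' a else φ a, ?_, ?_, ?_⟩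
  · intro a ha
    have ha' := mem_filter.1 ha
    exact mem_sdiff.2 ⟨ha'.1, fun h => ha'.2 (hR a h)⟩
  · by_contra hne
    rw [not_nonempty_iff_eq_empty] at hne
    apply hjn
    refine ⟨U, hUA, hU, ?_⟩
    rw [hψF]
    refine image_congr fun a ha => ?_
    by_contra h1
    have h2 : a ∈ D := mem_filter.2 ⟨(hsub j hjm).2 (mem_sdiff.1 (mem_coe.1 ha)).1, h1⟩
    rw [hne] at h2
    exact notMem_empty a h2
  · intro l hl hdis
    simp only [touch, mem_filter, mem_range] at hl
    obtain ⟨hlj, hlW, hlD⟩ := hl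
    have hlm : l < m := hlj.trans hjm
    have hagree : ∀ a ∈ R l, ψ' a = φ a := by
      intro a ha
      by_contra h1
      exact disjoint_left.1 hdis ha (mem_filter.2 ⟨hlW ((hsub l hlm).1 ha), h1⟩)
    obtain ⟨U1, hU1A, hU1, hF1⟩ := hψP l hlj hlW
    obtain ⟨U2, hU2A, hU2, hF2⟩ := hlt l hlj
    have h12 : U1 = U2 := by
      refine Subtype.ext ?_
      rw [hU1, hU2]
      exact image_congr fun a ha => hagree a ha
    rw [h12, hF2] at hF1
    have h3 := eq_of_image' hB hφ hψB hF1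
    apply hlD
    refine disjoint_left.2 fun a ha haD => ?_
    have h4 := (mem_filter.1 haD).2
    by_cases haR : a ∈ R l
    · exact h4 (hagree a haR)
    · exact h4 (h3 a (mem_sdiff.2 ⟨ha, haR⟩)).symm
  · intro a
    simp only
    split_ifs
    · exact hψB a
    · exact hφ a
  · intro a
    simp only [hD, mem_filter]
    split_ifs with h1
    · exact ⟨fun h => h.2, fun h => ⟨h1, h⟩⟩
    · exact ⟨fun h => absurd h.1 h1, fun h => absurd rfl h⟩
  · intro l hl
    simp only [touch, mem_filter, mem_range] at hl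
    obtain ⟨hlj, hlW, -⟩ := hl
    obtain ⟨U1, hU1A, hU1, -⟩ := hψP l hlj hlW
    refine ⟨U1, hU1A, ?_⟩
    rw [hU1]
    refine image_congr fun a ha => ?_
    have h1 : a ∈ W j := hlW ((hsub l (hlj.trans hjm)).1 (mem_coe.1 ha))
    simp only [if_pos h1]

end Pool.Agent.Lib.MP_426b05_co.H49
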