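import Pool.Agent.Lib.MP_426b05_co.H49.Res

/-!
# Module S2: the probability that given sets are offered
-/

set_option autoImplicit false

namespace Pool.Agent.Lib.MP_426b05_co.H49

open Finset

theorem mem_hits {r n m L : ℕ} (ρ : Fin m → Fin L → RS r n) {j : ℕ} (hj : j < m)
    (X : Finset (Fin n)) :
    (∃ U ∈ hits ρ j, U.1 = X) ↔ ∃ i : Fin L, (ρ ⟨j, hj⟩ i).1 = X := by
  unfold hits
  rw [dif_pos hj]
  constructor
  · rintro ⟨U, hU, hX⟩
    obtain ⟨i, -, hi⟩ := mem_image.1 hU
    exact ⟨i, by rw [hi, hX]⟩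
  · rintro ⟨i, hi⟩
    exact ⟨_, mem_image_of_mem _ (mem_univ i), hi⟩

theorem sum_ind_le {r n : ℕ} (X : Finset (Fin n)) :
    ∑ u : RS r n, (if u.1 = X then 1 else 0) ≤ 1 := by
  classical
  rw [← card_filter]
  refine card_le_one.2 fun a ha b hb => ?_
  exact Subtype.ext ((mem_filter.1 ha).2.trans (mem_filter.1 hb).2.symm)

/-- one prescribed value -/
theorem one_hit {r n L : ℕ} (X : Finset (Fin n)) (i : Fin L) :
    Fintype.card (RS r n) * ∑ f : Fin L → RS r n, (if (f i).1 = X then 1 else 0) ≤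
      Fintype.card (RS r n) ^ L := by
  classical
  rw [← sum_update i fun f : Fin L → RS r n => if (f i).1 = X then 1 else 0]
  simp only [Function.update_self]
  calc ∑ _f : Fin L → RS r n, ∑ u : RS r n, (if u.1 = X then 1 else 0)
      ≤ ∑ _f : Fin L → RS r n, 1 := sum_le_sum fun _ _ => sum_ind_le X
    _ = Fintype.card (RS r n) ^ L := by simp

/-- two prescribed values -/
theorem two_hit {r n L : ℕ} (X Y : Finset (Fin n)) (hXY : X ≠ Y) (i j : Fin L) :
    Fintype.card (RS r n) ^ 2 *
      ∑ f : Fin L → RS r n, (if (f i).1 = X ∧ (f j).1 = Y then 1 else 0) ≤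
        Fintype.card (RS r n) ^ L := by
  classical
  by_cases hij : i = j
  · subst hij
    have h1 : ∀ f : Fin L → RS r n, (if (f i).1 = X ∧ (f i).1 = Y then 1 else 0) = 0 := by
      intro f
      rw [if_neg]
      rintro ⟨h2, h3⟩
      exact hXY (h2.symm.trans h3)
    simp only [h1, sum_const_zero, mul_zero]
    exact Nat.zero_le _
  · rw [sq, mul_assoc,
      ← sum_update i fun f : Fin L → RS r n => if (f i).1 = X ∧ (f j).1 = Y then 1 else 0]
    refine le_trans (Nat.mul_le_mul_left _ ?_) (one_hit Y j)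
    refine sum_le_sum fun f _ => ?_
    simp only [Function.update_self, Function.update_of_ne (Ne.symm hij)]
    by_cases h1 : (f j).1 = Y
    · simp only [h1, and_true, if_true]
      exact sum_ind_le X
    · simp [h1]

/-- the number of sequences that hit `X` -/
theorem hit_le {r n L : ℕ} (X : Finset (Fin n)) :
    Nat.card {f : Fin L → RS r n // ∃ i, (f i).1 = X} * Fintype.card (RS r n) ≤
      Fintype.card (RS r n) ^ L * L := by
  classical
  have h1 : Nat.card {f : Fin L → RS r n // ∃ i, (f i).1 = X} ≤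
      ∑ i : Fin L, ∑ f : Fin L → RS r n, (if (f i).1 = X then 1 else 0) := by
    rw [sum_comm, Nat.card_eq_fintype_card, Fintype.card_subtype, card_filter]
    refine sum_le_sum fun f _ => ?_
    split_ifs with h2
    · obtain ⟨i, hi⟩ := h2
      calc 1 = if (f i).1 = X then 1 else 0 := by rw [if_pos hi]
        _ ≤ ∑ i : Fin L, (if (f i).1 = X then 1 else 0) :=
          single_le_sum (f := fun i : Fin L => if (f i).1 = X then 1 else 0)
            (fun _ _ => Nat.zero_le _) (mem_univ i)
    · exact Nat.zero_le _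
  calc Nat.card {f : Fin L → RS r n // ∃ i, (f i).1 = X} * Fintype.card (RS r n)
      ≤ (∑ i : Fin L, ∑ f : Fin L → RS r n, (if (f i).1 = X then 1 else 0)) *
        Fintype.card (RS r n) := Nat.mul_le_mul_right _ h1
    _ = ∑ i : Fin L, Fintype.card (RS r n) *
        ∑ f : Fin L → RS r n, (if (f i).1 = X then 1 else 0) := by
        rw [sum_mul]
        exact sum_congr rfl fun _ _ => mul_comm _ _
    _ ≤ ∑ _i : Fin L, Fintype.card (RS r n) ^ L := sum_le_sum fun i _ => one_hit X i
    _ = Fintype.card (RS r n) ^ L * L := by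
        rw [sum_const, card_univ, Fintype.card_fin, smul_eq_mul, mul_comm]

/-- the number of sequences that hit `X` and `Y` -/
theorem hit2_le {r n L : ℕ} (X Y : Finset (Fin n)) (hXY : X ≠ Y) :
    Nat.card {f : Fin L → RS r n // (∃ i, (f i).1 = X) ∧ ∃ i, (f i).1 = Y} *
      Fintype.card (RS r n) ^ 2 ≤ Fintype.card (RS r n) ^ L * L ^ 2 := by
  classical
  have h1 : Nat.card {f : Fin L → RS r n // (∃ i, (f i).1 = X) ∧ ∃ i, (f i).1 = Y} ≤
      ∑ q : Fin L × Fin L, ∑ f : Fin L → RS r n,
        (if (f q.1).1 = X ∧ (f q.2).1 = Y then 1 else 0) := by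
    rw [sum_comm, Nat.card_eq_fintype_card, Fintype.card_subtype, card_filter]
    refine sum_le_sum fun f _ => ?_
    split_ifs with h2
    · obtain ⟨⟨i, hi⟩, ⟨j, hj⟩⟩ := h2
      calc 1 = if (f i).1 = X ∧ (f j).1 = Y then 1 else 0 := by rw [if_pos ⟨hi, hj⟩]
        _ ≤ ∑ q : Fin L × Fin L, (if (f q.1).1 = X ∧ (f q.2).1 = Y then 1 else 0) :=
          single_le_sum (f := fun q : Fin L × Fin L =>
            if (f q.1).1 = X ∧ (f q.2).1 = Y then 1 else 0)
            (fun _ _ => Nat.zero_le _) (mem_univ (i, j))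
    · exact Nat.zero_le _
  calc Nat.card {f : Fin L → RS r n // (∃ i, (f i).1 = X) ∧ ∃ i, (f i).1 = Y} *
        Fintype.card (RS r n) ^ 2
      ≤ (∑ q : Fin L × Fin L, ∑ f : Fin L → RS r n,
          (if (f q.1).1 = X ∧ (f q.2).1 = Y then 1 else 0)) * Fintype.card (RS r n) ^ 2 :=
        Nat.mul_le_mul_right _ h1
    _ = ∑ q : Fin L × Fin L, Fintype.card (RS r n) ^ 2 *
        ∑ f : Fin L → RS r n, (if (f q.1).1 = X ∧ (f q.2).1 = Y then 1 else 0) := by
        rw [sum_mul]
        exact sum_congr rfl fun _ _ => mul_comm _ _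
    _ ≤ ∑ _q : Fin L × Fin L, Fintype.card (RS r n) ^ L :=
        sum_le_sum fun q _ => two_hit X Y hXY q.1 q.2
    _ = Fintype.card (RS r n) ^ L * L ^ 2 := by
        rw [sum_const, card_univ, Fintype.card_prod, Fintype.card_fin, smul_eq_mul]
        ring

/-- a product of conditions -/
theorem card_pi_cond {r n m L : ℕ} (P : Fin m → (Fin L → RS r n) → Prop) :
    Nat.card {ρ : Fin m → Fin L → RS r n // ∀ j, P j (ρ j)} =
      ∏ j, Nat.card {f : Fin L → RS r n // P j f} := by
  rw [Nat.card_congr (Equiv.subtypePiEquivPi (p := P)), Nat.card_pi]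

theorem s2a : S2aStatement := by
  intro V _ _ r n m L R φ ψ S hS hne
  classical
  set N := Fintype.card (RS r n) with hN
  set P : Fin m → (Fin L → RS r n) → Prop := fun j f =>
    (∃ i, (f i).1 = (R j).image φ) ∧ (j.1 ∈ S → ∃ i, (f i).1 = (R j).image ψ) with hP
  have h1 : Nat.card {ρ : Fin m → Fin L → RS r n //
      (∀ j < m, ∃ U ∈ hits ρ j, U.1 = (R j).image φ) ∧
        ∀ l ∈ S, ∃ U ∈ hits ρ l, U.1 = (R l).image ψ} =
      ∏ j, Nat.card {f : Fin L → RS r n // P j f} := by
    rw [← card_pi_cond]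
    refine Nat.card_congr (Equiv.subtypeEquivRight fun ρ => ?_)
    constructor
    · rintro ⟨h2, h3⟩ j
      exact ⟨(mem_hits ρ j.2 _).1 (h2 j.1 j.2), fun hj => (mem_hits ρ j.2 _).1 (h3 j.1 hj)⟩
    · intro h2
      refine ⟨fun j hj => (mem_hits ρ hj _).2 (h2 ⟨j, hj⟩).1, fun l hl => ?_⟩
      have hlm : l < m := mem_range.1 (hS hl)
      exact (mem_hits ρ hlm _).2 ((h2 ⟨l, hlm⟩).2 hl)
  rw [h1]
  have h2 : ∀ j : Fin m, Nat.card {f : Fin L → RS r n // P j f} *
      N ^ (1 + if j.1 ∈ S then 1 else 0) ≤ N ^ L * L ^ (1 + if j.1 ∈ S then 1 else 0) := by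
    intro j
    by_cases hj : j.1 ∈ S
    · simp only [if_pos hj]
      refine le_trans (Nat.mul_le_mul_right _ ?_) (hit2_le ((R j).image φ) ((R j).image ψ)
        (hne j.1 hj))
      refine Nat.card_le_card_of_injective
        (fun q : {f : Fin L → RS r n // P j f} => (⟨q.1, q.2.1, q.2.2 hj⟩ :
          {f : Fin L → RS r n // (∃ i, (f i).1 = (R j).image φ) ∧
            ∃ i, (f i).1 = (R j).image ψ})) ?_
      intro q q' h
      exact Subtype.ext (Subtype.mk.inj h)
    · simp only [if_neg hj, add_zero, pow_one]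
      refine le_trans (Nat.mul_le_mul_right _ ?_) (hit_le ((R j).image φ))
      refine Nat.card_le_card_of_injective
        (fun q : {f : Fin L → RS r n // P j f} => (⟨q.1, q.2.1⟩ :
          {f : Fin L → RS r n // ∃ i, (f i).1 = (R j).image φ})) ?_
      intro q q' h
      exact Subtype.ext (Subtype.mk.inj h)
  have h3 : ∑ j : Fin m, (1 + if j.1 ∈ S then 1 else 0) = m + S.card := by
    rw [sum_add_distrib]
    congr 1
    · simp
    · rw [Fin.sum_univ_eq_sum_range (fun j => if j ∈ S then 1 else 0) m, ← sum_filter,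
        filter_mem_eq_inter, inter_eq_right.2 hS]
      simp
  have h4 := prod_le_prod' (s := (univ : Finset (Fin m))) (fun j _ => h2 j)
  have h5 : ∏ _j : Fin m, N ^ L = N ^ (L * m) := by
    rw [prod_const, card_univ, Fintype.card_fin, ← pow_mul]
  have h6 : ∀ x : ℕ, ∏ j : Fin m, x ^ (1 + if j.1 ∈ S then 1 else 0) = x ^ (m + S.card) := by
    intro x
    rw [prod_pow_eq_pow_sum, h3]
  rw [prod_mul_distrib, prod_mul_distrib, h5, h6, h6] at h4
  exact h4

theorem s2b : S2bStatement := by
  intro V _ _ r n m L R φ hL hcard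
  classical
  set N := Fintype.card (RS r n) with hN
  have h1 : Nat.card {ρ : Fin m → Fin L → RS r n //
      ∀ j < m, ∃ U ∈ hits ρ j, U.1 = (R j).image φ} =
      ∏ j : Fin m, Nat.card {f : Fin L → RS r n // ∃ i, (f i).1 = (R j).image φ} := by
    rw [← card_pi_cond (fun (j : Fin m) (f : Fin L → RS r n) => ∃ i, (f i).1 = (R j).image φ)]
    refine Nat.card_congr (Equiv.subtypeEquivRight fun ρ => ?_)
    exact ⟨fun h2 j => (mem_hits ρ j.2 _).1 (h2 j.1 j.2), fun h2 j hj =>
      (mem_hits ρ hj _).2 (h2 ⟨j, hj⟩)⟩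
  have h2 : ∀ j : Fin m, N ^ L * L ≤
      Nat.card {f : Fin L → RS r n // ∃ i, (f i).1 = (R j).image φ} * (2 * N) := by
    intro j
    set U : RS r n := ⟨(R j).image φ, hcard j.1 j.2⟩ with hU
    have hN1 : 1 ≤ N := Fintype.card_pos_iff.2 ⟨U⟩
    have h3 : Nat.card {f : Fin L → RS r n // ∃ i, (f i).1 = (R j).image φ} =
        N ^ L - (N - 1) ^ L := by
      rw [Nat.card_eq_fintype_card]
      have h4 : ∀ f : Fin L → RS r n, (∃ i, (f i).1 = (R j).image φ) ↔ ¬ ∀ i, f i ≠ U := by
        intro f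
        push Not
        refine exists_congr fun i => ?_
        rw [hU, Subtype.ext_iff]
      rw [Fintype.card_congr (Equiv.subtypeEquivRight h4), Fintype.card_subtype_compl]
      congr 1
      · rw [Fintype.card_fun, Fintype.card_fin]
      · rw [Fintype.card_congr (Equiv.subtypePiEquivPi
          (p := fun (_ : Fin L) (g : RS r n) => g ≠ U)), Fintype.card_pi]
        simp only [prod_const, card_univ, Fintype.card_fin]
        congr 1
        rw [Fintype.card_subtype_compl]
        simp [hN]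
    rw [h3]
    have h5 : (N - 1) ^ L ≤ N ^ L := Nat.pow_le_pow_left (by omega) L
    -- real arithmetic
    have hNr : (1 : ℝ) ≤ N := by exact_mod_cast hN1
    have h6 : ∀ k : ℕ, k ≤ N → (((N : ℝ) - 1) / N) ^ k ≤ 1 - k / (2 * N) := by
      intro k
      induction k with
      | zero => intro _; simp
      | succ k ih =>
        intro hk
        have h7 := ih (by omega)
        have h8 : (k : ℝ) ≤ N := by exact_mod_cast (by omega : k ≤ N)
        rw [pow_succ]
        have h9 : 0 ≤ ((N : ℝ) - 1) / N := div_nonneg (by linarith) (by linarith)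
        calc (((N : ℝ) - 1) / N) ^ k * (((N : ℝ) - 1) / N)
            ≤ (1 - k / (2 * N)) * (((N : ℝ) - 1) / N) := mul_le_mul_of_nonneg_right h7 h9
          _ ≤ 1 - ((k + 1 : ℕ) : ℝ) / (2 * N) := by
            push_cast
            have hN0 : (0 : ℝ) < N := by linarith
            have h10 : 1 - ((k : ℝ) + 1) / (2 * N) - (1 - k / (2 * N)) * (((N : ℝ) - 1) / N) =
                (N - k) / (2 * N ^ 2) := by
              field_simp
              ring
            have h11 : 0 ≤ ((N : ℝ) - k) / (2 * N ^ 2) :=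
              div_nonneg (by linarith) (by positivity)
            linarith
    have h7 := h6 L hL
    have hN0 : (0 : ℝ) < N := by linarith
    have h8 : ((N : ℝ) - 1) ^ L ≤ (N : ℝ) ^ L * (1 - L / (2 * N)) := by
      rw [div_pow, div_le_iff₀ (by positivity)] at h7
      linarith
    have h9 : ((N ^ L * L : ℕ) : ℝ) ≤ (((N ^ L - (N - 1) ^ L) * (2 * N) : ℕ) : ℝ) := by
      push_cast [Nat.cast_sub h5, Nat.cast_sub hN1]
      have h10 : (N : ℝ) ^ L * (1 - L / (2 * N)) * (2 * N) =
          (N : ℝ) ^ L * (2 * N) - (N : ℝ) ^ L * L := by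
        field_simp
      nlinarith [mul_le_mul_of_nonneg_right h8 (by positivity : (0 : ℝ) ≤ 2 * N)]
    exact_mod_cast h9
  rw [h1]
  have h4 := prod_le_prod' (s := (univ : Finset (Fin m))) (fun j _ => h2 j)
  rw [prod_mul_distrib, prod_mul_distrib, prod_const, prod_const, prod_const, card_univ,
    Fintype.card_fin, ← pow_mul] at h4
  exact h4

end Pool.Agent.Lib.MP_426b05_co.H49
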