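import Pool.Agent.Lib.MP_426b05_co.Base

/-!
# Module S8: independent rounds
-/

set_option autoImplicit false

namespace Pool.Agent.Lib.MP_426b05_co.H49

open Finset

theorem s8 : S8Statement := by
  intro α _ _ M t κ h c G hc0 hc1 hG
  classical
  have ht : κ * M + (t - κ * M) = t := Nat.add_sub_cancel' h
  obtain ⟨E, hE⟩ : ∃ E : (Fin κ × Fin M) ⊕ Fin (t - κ * M) ≃ Fin t,
      ∀ (x : Fin κ) (i : Fin M), ((E (Sum.inl (x, i)) : Fin t) : ℕ) = x.1 * M + i.1 := by
    refine ⟨((Equiv.sumCongr finProdFinEquiv (Equiv.refl _)).trans finSumFinEquiv).trans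
      (finCongr ht), fun x i => ?_⟩
    simp only [Equiv.trans_apply, Equiv.sumCongr_apply, Sum.map_inl, finSumFinEquiv_apply_left,
      finCongr_apply, Fin.val_cast, Fin.val_castAdd, finProdFinEquiv_apply_val]
    ring
  obtain ⟨Φ, hΦ⟩ : ∃ Φ : (Fin t → α) ≃ (Fin κ → Fin M → α) × (Fin (t - κ * M) → α),
      ∀ (u : Fin t → α) (x : Fin κ) (i : Fin M), (Φ u).1 x i = u (E (Sum.inl (x, i))) :=
    ⟨((Equiv.arrowCongr E.symm (Equiv.refl α)).trans (Equiv.sumArrowEquivProdArrow _ _ _)).trans
      (Equiv.prodCongr (Equiv.curry _ _ _) (Equiv.refl _)), fun u x i => rfl⟩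
  have hcard : Nat.card {u : Fin t → α // ∀ x : Fin κ, (fun i : Fin M => u ⟨x.1 * M + i.1, by
        have := x.2; have := i.2
        have h3 : (x.1 + 1) * M ≤ κ * M := Nat.mul_le_mul_right M x.2
        have h4 : (x.1 + 1) * M = x.1 * M + M := by ring
        omega⟩) ∉ G} = (Fintype.card α ^ M - G.card) ^ κ * Fintype.card α ^ (t - κ * M) := by
    have h1 : Nat.card {u : Fin t → α // ∀ x : Fin κ, (fun i : Fin M => u ⟨x.1 * M + i.1, by
        have := x.2; have := i.2
        have h3 : (x.1 + 1) * M ≤ κ * M := Nat.mul_le_mul_right M x.2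
        have h4 : (x.1 + 1) * M = x.1 * M + M := by ring
        omega⟩) ∉ G} =
        Nat.card {q : (Fin κ → Fin M → α) × (Fin (t - κ * M) → α) // ∀ x, q.1 x ∉ G} := by
      refine Nat.card_congr (Φ.subtypeEquiv fun u => ?_)
      refine forall_congr' fun x => ?_
      have h2 : (Φ u).1 x = fun i : Fin M => u ⟨x.1 * M + i.1, by
          have := x.2; have := i.2
          have h3 : (x.1 + 1) * M ≤ κ * M := Nat.mul_le_mul_right M x.2
          have h4 : (x.1 + 1) * M = x.1 * M + M := by ring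
          omega⟩ := by
        funext i
        rw [hΦ]
        congr 1
        exact Fin.ext (hE x i)
      rw [h2]
    rw [h1, Nat.card_congr (Equiv.prodSubtypeFstEquivSubtypeProd
      (p := fun f : Fin κ → Fin M → α => ∀ x, f x ∉ G)), Nat.card_prod,
      Nat.card_congr (Equiv.subtypePiEquivPi (p := fun (_ : Fin κ) (g : Fin M → α) => g ∉ G)),
      Nat.card_pi]
    simp only [Finset.prod_const, Finset.card_univ, Fintype.card_fin]
    congr 1
    · congr 1
      rw [Nat.card_eq_fintype_card, Fintype.card_subtype_compl]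
      simp
    · simp
  rw [hcard]
  have hGle : G.card ≤ Fintype.card α ^ M := by
    have := G.card_le_univ
    simpa using this
  rw [Nat.cast_mul, Nat.cast_pow, Nat.cast_sub hGle, Nat.cast_pow, Nat.cast_pow]
  have h2 : (Fintype.card α : ℝ) ^ M - G.card ≤ (1 - c) * (Fintype.card α : ℝ) ^ M := by
    linarith
  have h3 : 0 ≤ (Fintype.card α : ℝ) ^ M - G.card := by
    have : (G.card : ℝ) ≤ (Fintype.card α : ℝ) ^ M := by exact_mod_cast hGle
    linarith
  calc ((Fintype.card α : ℝ) ^ M - G.card) ^ κ * (Fintype.card α : ℝ) ^ (t - κ * M)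
      ≤ ((1 - c) * (Fintype.card α : ℝ) ^ M) ^ κ * (Fintype.card α : ℝ) ^ (t - κ * M) := by
        gcongr
    _ = (1 - c) ^ κ * (Fintype.card α : ℝ) ^ (κ * M + (t - κ * M)) := by
        rw [mul_pow, ← pow_mul, pow_add]
        ring
    _ = (1 - c) ^ κ * (Fintype.card α : ℝ) ^ t := by rw [ht]

end Pool.Agent.Lib.MP_426b05_co.H49
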