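import Pool.Agent.Lib.MP_426b05_co.H49.Cs

/-!
# Module YXB
-/

set_option autoImplicit false

namespace Pool.Agent.Lib.MP_426b05_co.H49

open Finset

theorem yx : YxStatement := by
  intro V _ _ r n t A χ e R i ω
  classical
  have h1 : ∀ U : RS r n, (univ.sup fun B : Finset (Fin n) => cntUB A χ e R i ω U B) ≤
      (univ.filter fun p : (V → Fin n) × (Fin i → Fin t) =>
        Valid A χ e R i ω p ∧ (R i).image p.1 = U.1).card := by
    intro U
    refine Finset.sup_le fun B _ => ?_
    unfold cntUB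
    refine card_le_card fun p hp => ?_
    have hp' := (mem_filter.1 hp).2
    exact mem_filter.2 ⟨mem_univ _, hp'.1, hp'.2.1⟩
  unfold ysum
  refine (sum_le_sum fun U _ => h1 U).trans ?_
  rw [← card_biUnion]
  · unfold cnt
    refine card_le_card fun p hp => ?_
    obtain ⟨U, -, hU⟩ := mem_biUnion.1 hp
    exact mem_filter.2 ⟨mem_univ _, (mem_filter.1 hU).2.1⟩
  · intro U _ U' _ hne
    refine disjoint_left.2 fun p hp hp' => hne ?_
    exact Subtype.ext ((mem_filter.1 hp).2.2.symm.trans (mem_filter.1 hp').2.2)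

theorem base1 : Base1Statement := by
  intro V _ _ r n t A χ e R ω hRe
  classical
  have h1 : cnt A χ e R 1 ω ≤
      (univ : Finset (Fin t × ({a : V // a ∉ e 0} → Fin n))).card := by
    unfold cnt
    refine card_le_card_of_injOn (fun p : (V → Fin n) × (Fin 1 → Fin t) =>
      (p.2 0, fun a : {a : V // a ∉ e 0} => p.1 a.1)) (fun _ _ => mem_coe.2 (mem_univ _)) ?_
    intro p hp q hq hpq
    have hp' := (mem_filter.1 (mem_coe.1 hp)).2
    have hq' := (mem_filter.1 (mem_coe.1 hq)).2
    obtain ⟨h2, h3⟩ := Prod.mk.inj hpq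
    have h4 := hp'.2.2 0
    have h5 := hq'.2.2 0
    simp only [Fin.val_zero] at h4 h5
    rw [← h2] at h5
    have h6 := eq_of_image hp'.1 hq'.1 (h4.1.symm.trans h5.1)
    have h7 := eq_of_image hp'.1 hq'.1 (h4.2.symm.trans h5.2)
    refine Prod.ext (funext fun a => ?_) (funext fun j => ?_)
    · by_cases ha : a ∈ e 0
      · by_cases haR : a ∈ R 0
        · exact h6 a haR
        · exact h7 a (mem_sdiff.2 ⟨ha, haR⟩)
      · exact congrFun h3 ⟨a, ha⟩
    · have hj : j = 0 := Subsingleton.elim _ _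
      rw [hj]
      exact h2
  refine h1.trans (le_of_eq ?_)
  rw [card_univ, Fintype.card_prod, Fintype.card_fin, Fintype.card_fun, Fintype.card_fin]
  congr 2
  rw [Fintype.card_subtype_compl]
  simp

end Pool.Agent.Lib.MP_426b05_co.H49
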